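import Mathlib

set_option autoImplicit false
set_option linter.unusedSectionVars false
open MeasureTheory Filter Set
open scoped ENNReal NNReal Topology

namespace Pool.Agent.W773.LipInt

theorem lint_small (q : ℝ) (hq : 0 < q) (c : ℝ) (hc : 0 ≤ c) :
    ∫⁻ s in Ioo (0:ℝ) c, ENNReal.ofReal (s ^ (q - 1)) = ENNReal.ofReal (c ^ q / q) := by
  have h1 : ∫ s in Ioo (0:ℝ) c, s ^ (q - 1) = c ^ q / q := by
    rw [← integral_Ioc_eq_integral_Ioo, ← intervalIntegral.integral_of_le hc,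
      integral_rpow (Or.inl (by linarith))]
    simp [hq.ne']
  have h2 : IntegrableOn (fun s : ℝ => s ^ (q - 1)) (Ioo 0 c) := by
    have h3 : IntervalIntegrable (fun s : ℝ => s ^ (q - 1)) volume 0 c :=
      intervalIntegral.intervalIntegrable_rpow' (by linarith)
    rw [intervalIntegrable_iff_integrableOn_Ioo_of_le hc] at h3
    exact h3
  rw [← h1, ofReal_integral_eq_lintegral_ofReal h2]
  rw [Filter.EventuallyLE, ae_restrict_iff' measurableSet_Ioo]
  exact Eventually.of_forall fun s hs => Real.rpow_nonneg hs.1.le _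

theorem lint_large (q : ℝ) (hq : 0 < q) (c : ℝ) (hc : 0 < c) :
    ∫⁻ s in Ioi c, ENNReal.ofReal (s ^ (-q - 1)) = ENNReal.ofReal (c ^ (-q) / q) := by
  have h1 : ∫ s in Ioi c, s ^ (-q - 1) = c ^ (-q) / q := by
    rw [integral_Ioi_rpow_of_lt (by linarith) hc]
    have : -q - 1 + 1 = -q := by ring
    rw [this, neg_div_neg_eq]
  have h2 : IntegrableOn (fun s : ℝ => s ^ (-q - 1)) (Ioi c) :=
    integrableOn_Ioi_rpow_of_lt (by linarith) hc
  rw [← h1, ofReal_integral_eq_lintegral_ofReal h2]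
  rw [Filter.EventuallyLE, ae_restrict_iff' measurableSet_Ioi]
  exact Eventually.of_forall fun s hs => Real.rpow_nonneg (hc.trans hs).le _

variable {Ω : Type*} [MeasurableSpace Ω] {μ : Measure Ω} [IsFiniteMeasure μ]

/-- Chebyshev in the form used below. -/
theorem cheb (h : Ω → ℂ) (hh : AEStronglyMeasurable h μ) (β : ℝ) (hβ : 0 < β) (M : ℝ≥0)
    (hM : M ≠ 0) (s : ℝ) (hs : 0 < s) (F : Ω → ℝ) (hF0 : ∀ x, 0 ≤ F x)
    (H : eLpNorm h (ENNReal.ofReal β) μ ≤ M * eLpNorm F (ENNReal.ofReal β) μ) :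
    μ {x | M * s ≤ ‖h x‖} ≤ ENNReal.ofReal (s ^ (-β)) * ∫⁻ x, ENNReal.ofReal (F x ^ β) ∂μ := by
  have hM' : (0:ℝ) < M := by positivity
  have hβ0 : ENNReal.ofReal β ≠ 0 := by simpa using hβ
  have hβt : ENNReal.ofReal β ≠ ⊤ := ENNReal.ofReal_ne_top
  have hβr : (ENNReal.ofReal β).toReal = β := ENNReal.toReal_ofReal hβ.le
  have h1 := mul_meas_ge_le_pow_eLpNorm' μ hβ0 hβt hh (ENNReal.ofReal (M * s))
  rw [hβr] at h1
  have hset : {x | ENNReal.ofReal (M * s) ≤ ‖h x‖ₑ} = {x | M * s ≤ ‖h x‖} := by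
    ext x
    simp only [Set.mem_ofPred_eq]
    rw [← ofReal_norm, ENNReal.ofReal_le_ofReal_iff (norm_nonneg _)]
  rw [hset] at h1
  have h2 : eLpNorm F (ENNReal.ofReal β) μ ^ β = ∫⁻ x, ENNReal.ofReal (F x ^ β) ∂μ := by
    rw [eLpNorm_eq_lintegral_rpow_enorm_toReal hβ0 hβt, hβr, ← ENNReal.rpow_mul, one_div,
      inv_mul_cancel₀ hβ.ne', ENNReal.rpow_one]
    apply lintegral_congr
    intro x
    rw [Real.enorm_of_nonneg (hF0 x), ENNReal.ofReal_rpow_of_nonneg (hF0 x) hβ.le]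
  have h3 : ENNReal.ofReal (M * s) ^ β * μ {x | M * s ≤ ‖h x‖} ≤
      ENNReal.ofReal ((M:ℝ) ^ β) * ∫⁻ x, ENNReal.ofReal (F x ^ β) ∂μ := by
    refine h1.trans ?_
    calc eLpNorm h (ENNReal.ofReal β) μ ^ β ≤ (M * eLpNorm F (ENNReal.ofReal β) μ) ^ β := by
          gcongr
      _ = _ := by
          rw [ENNReal.mul_rpow_of_nonneg _ _ hβ.le, h2]
          congr 1
          rw [← ENNReal.ofReal_rpow_of_nonneg hM'.le hβ.le, ENNReal.ofReal_coe_nnreal]
  have h4 : ENNReal.ofReal (M * s) ^ β = ENNReal.ofReal ((M:ℝ) ^ β) * ENNReal.ofReal (s ^ β) := by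
    rw [ENNReal.ofReal_rpow_of_nonneg (by positivity) hβ.le, Real.mul_rpow hM'.le hs.le,
      ENNReal.ofReal_mul (by positivity)]
  rw [h4, mul_assoc] at h3
  have hMβ : 0 < (M:ℝ) ^ β := by positivity
  have h5 := (ENNReal.mul_le_mul_iff_right (a := ENNReal.ofReal ((M:ℝ) ^ β))
    (by simpa using hMβ) ENNReal.ofReal_ne_top).mp h3
  have hsβ : 0 < s ^ β := by positivity
  calc μ {x | M * s ≤ ‖h x‖} = ENNReal.ofReal (s ^ (-β)) *
        (ENNReal.ofReal (s ^ β) * μ {x | M * s ≤ ‖h x‖}) := by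
        rw [← mul_assoc, ← ENNReal.ofReal_mul (by positivity), ← Real.rpow_add hs]
        simp
    _ ≤ _ := by gcongr

/-- the large part of the size of `f` -/
noncomputable def FL (f : Ω → ℂ) (s : ℝ) (x : Ω) : ℝ := if s < ‖f x‖ then ‖f x‖ else 0
/-- the small part of the size of `f` -/
noncomputable def FS (f : Ω → ℂ) (s : ℝ) (x : Ω) : ℝ := if s < ‖f x‖ then 0 else ‖f x‖

theorem FL_nonneg (f : Ω → ℂ) (s : ℝ) (x : Ω) : 0 ≤ FL f s x := by
  unfold FL; split_ifs <;> positivity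
theorem FS_nonneg (f : Ω → ℂ) (s : ℝ) (x : Ω) : 0 ≤ FS f s x := by
  unfold FS; split_ifs <;> positivity

theorem FL_meas2 (f : Ω → ℂ) (hf : Measurable f) : Measurable (fun p : ℝ × Ω => FL f p.1 p.2) := by
  unfold FL
  refine Measurable.ite ?_ ?_ measurable_const
  · exact measurableSet_lt measurable_fst (hf.comp measurable_snd).norm
  · exact (hf.comp measurable_snd).norm
theorem FS_meas2 (f : Ω → ℂ) (hf : Measurable f) : Measurable (fun p : ℝ × Ω => FS f p.1 p.2) := by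
  unfold FS
  refine Measurable.ite ?_ measurable_const ?_
  · exact measurableSet_lt measurable_fst (hf.comp measurable_snd).norm
  · exact (hf.comp measurable_snd).norm
theorem FL_meas (f : Ω → ℂ) (hf : Measurable f) (s : ℝ) : Measurable (FL f s) :=
  (FL_meas2 f hf).comp (measurable_const.prodMk measurable_id)
theorem FS_meas (f : Ω → ℂ) (hf : Measurable f) (s : ℝ) : Measurable (FS f s) :=
  (FS_meas2 f hf).comp (measurable_const.prodMk measurable_id)

theorem inner_L (f : Ω → ℂ) (β γ : ℝ) (hβ : 0 < β) (hβγ : β < γ) (x : Ω) :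
    ∫⁻ s in Ioi (0:ℝ), ENNReal.ofReal (s ^ (-β)) * ENNReal.ofReal (FL f s x ^ β) *
      ENNReal.ofReal (s ^ (γ - 1)) = ENNReal.ofReal (1 / (γ - β)) * ENNReal.ofReal (‖f x‖ ^ γ) := by
  have h1 : ∀ s ∈ Ioi (0:ℝ), ENNReal.ofReal (s ^ (-β)) * ENNReal.ofReal (FL f s x ^ β) *
      ENNReal.ofReal (s ^ (γ - 1)) = (Iio ‖f x‖).indicator
        (fun s => ENNReal.ofReal (‖f x‖ ^ β) * ENNReal.ofReal (s ^ (γ - β - 1))) s := by
    intro s hs
    have hs' : (0:ℝ) < s := hs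
    by_cases h : s < ‖f x‖
    · rw [indicator_of_mem (show s ∈ Iio ‖f x‖ from h)]
      simp only [FL, if_pos h]
      rw [mul_comm (ENNReal.ofReal (s ^ (-β))), mul_assoc, ← ENNReal.ofReal_mul (by positivity),
        ← Real.rpow_add hs']
      congr 3
      ring
    · rw [indicator_of_notMem (show s ∉ Iio ‖f x‖ from h)]
      simp only [FL, if_neg h]
      rw [Real.zero_rpow hβ.ne']
      simp
  rw [setLIntegral_congr_fun measurableSet_Ioi h1, lintegral_indicator measurableSet_Iio,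
    Measure.restrict_restrict measurableSet_Iio]
  have h2 : Iio ‖f x‖ ∩ Ioi 0 = Ioo 0 ‖f x‖ := by
    ext s; simp [and_comm]
  rw [h2, lintegral_const_mul' _ _ ENNReal.ofReal_ne_top, lint_small _ (by linarith) _ (norm_nonneg _),
    ← ENNReal.ofReal_mul (by positivity), ← ENNReal.ofReal_mul (by
      have : 0 < γ - β := by linarith
      positivity)]
  congr 1
  rcases (norm_nonneg (f x)).eq_or_lt with h0 | h0
  · rw [← h0, Real.zero_rpow hβ.ne', Real.zero_rpow (by linarith : γ ≠ 0)]; ring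
  · have : ‖f x‖ ^ γ = ‖f x‖ ^ β * ‖f x‖ ^ (γ - β) := by
      rw [← Real.rpow_add h0]; congr 1; ring
    rw [this]; ring

theorem inner_S (f : Ω → ℂ) (α γ : ℝ) (hγ : 0 < γ) (hγα : γ < α) (x : Ω) :
    ∫⁻ s in Ioi (0:ℝ), ENNReal.ofReal (s ^ (-α)) * ENNReal.ofReal (FS f s x ^ α) *
      ENNReal.ofReal (s ^ (γ - 1)) = ENNReal.ofReal (1 / (α - γ)) * ENNReal.ofReal (‖f x‖ ^ γ) := by
  have hα : 0 < α := by linarith
  have hαγ : 0 < α - γ := by linarith
  rcases (norm_nonneg (f x)).eq_or_lt with h0 | h0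
  · have h1 : ∀ s ∈ Ioi (0:ℝ), ENNReal.ofReal (s ^ (-α)) * ENNReal.ofReal (FS f s x ^ α) *
        ENNReal.ofReal (s ^ (γ - 1)) = 0 := by
      intro s hs
      have : FS f s x = 0 := by unfold FS; split_ifs <;> simp [← h0]
      rw [this, Real.zero_rpow hα.ne']; simp
    rw [setLIntegral_congr_fun measurableSet_Ioi h1, ← h0, Real.zero_rpow hγ.ne']
    simp
  have h1 : ∀ s ∈ Ioi (0:ℝ), ENNReal.ofReal (s ^ (-α)) * ENNReal.ofReal (FS f s x ^ α) *
      ENNReal.ofReal (s ^ (γ - 1)) = (Ici ‖f x‖).indicator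
        (fun s => ENNReal.ofReal (‖f x‖ ^ α) * ENNReal.ofReal (s ^ (-(α - γ) - 1))) s := by
    intro s hs
    have hs' : (0:ℝ) < s := hs
    by_cases h : s < ‖f x‖
    · rw [indicator_of_notMem (show s ∉ Ici ‖f x‖ from not_le.mpr h)]
      simp only [FS, if_pos h]
      rw [Real.zero_rpow hα.ne']
      simp
    · rw [indicator_of_mem (show s ∈ Ici ‖f x‖ from not_lt.mp h)]
      simp only [FS, if_neg h]
      rw [mul_comm (ENNReal.ofReal (s ^ (-α))), mul_assoc, ← ENNReal.ofReal_mul (by positivity),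
        ← Real.rpow_add hs']
      congr 3
      ring
  rw [setLIntegral_congr_fun measurableSet_Ioi h1, lintegral_indicator measurableSet_Ici,
    Measure.restrict_restrict measurableSet_Ici]
  have h2 : Ici ‖f x‖ ∩ Ioi 0 = Ici ‖f x‖ := by
    ext s; simp only [mem_inter_iff, mem_Ici, mem_Ioi, and_iff_left_iff_imp]
    intro h; linarith
  rw [h2, setLIntegral_congr Ioi_ae_eq_Ici.symm, lintegral_const_mul' _ _ ENNReal.ofReal_ne_top,
    lint_large _ hαγ _ h0, ← ENNReal.ofReal_mul (by positivity),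
    ← ENNReal.ofReal_mul (by positivity)]
  congr 1
  have : ‖f x‖ ^ γ = ‖f x‖ ^ α * ‖f x‖ ^ (-(α - γ)) := by
    rw [← Real.rpow_add h0]; congr 1; ring
  rw [this]; ring

/-- Marcinkiewicz type interpolation from decompositions. -/
theorem marc (f h : Ω → ℂ) (hf : Measurable f) (hh : AEStronglyMeasurable h μ) (β γ α : ℝ)
    (hβ : 0 < β) (hβγ : β < γ) (hγα : γ < α) (M : ℝ≥0) (hM : M ≠ 0)
    (H : ∀ s : ℝ, 0 < s → ∃ h1 h2 : Ω → ℂ, AEStronglyMeasurable h1 μ ∧ AEStronglyMeasurable h2 μ ∧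
      h =ᵐ[μ] h1 + h2 ∧
      eLpNorm h1 (ENNReal.ofReal β) μ ≤ M * eLpNorm (FL f s) (ENNReal.ofReal β) μ ∧
      eLpNorm h2 (ENNReal.ofReal α) μ ≤ M * eLpNorm (FS f s) (ENNReal.ofReal α) μ) :
    ∫⁻ x, ENNReal.ofReal (‖h x‖ ^ γ) ∂μ ≤
      ENNReal.ofReal ((2 * M) ^ γ * (γ / (γ - β) + γ / (α - γ))) *
        ∫⁻ x, ENNReal.ofReal (‖f x‖ ^ γ) ∂μ := by
  have hM' : (0:ℝ) < M := by positivity
  have hγ : 0 < γ := by linarith
  have hα : 0 < α := by linarith
  have hγβ' : 0 < γ - β := by linarith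
  have hαγ' : 0 < α - γ := by linarith
  set g : Ω → ℝ := fun x => ‖h x‖ / (2 * M) with hg
  have hg0 : 0 ≤ᵐ[μ] g := Eventually.of_forall fun x => by
    show 0 ≤ ‖h x‖ / (2 * M); positivity
  have hgm : AEMeasurable g μ := hh.norm.aemeasurable.div_const _
  have e1 := lintegral_rpow_eq_lintegral_meas_lt_mul μ hg0 hgm hγ
  have e2 : ∫⁻ x, ENNReal.ofReal (‖h x‖ ^ γ) ∂μ =
      ENNReal.ofReal ((2 * M) ^ γ) * ∫⁻ x, ENNReal.ofReal (g x ^ γ) ∂μ := by
    rw [← lintegral_const_mul' _ _ ENNReal.ofReal_ne_top]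
    apply lintegral_congr
    intro x
    rw [← ENNReal.ofReal_mul (by positivity), ← Real.mul_rpow (by positivity) (by
      show 0 ≤ ‖h x‖ / (2 * M); positivity)]
    congr 2
    show ‖h x‖ = 2 * M * (‖h x‖ / (2 * M))
    field_simp
  have e3 : ∀ s ∈ Ioi (0:ℝ), μ {a | s < g a} * ENNReal.ofReal (s ^ (γ - 1)) ≤
      (∫⁻ x, ENNReal.ofReal (s ^ (-β)) * ENNReal.ofReal (FL f s x ^ β) *
        ENNReal.ofReal (s ^ (γ - 1)) ∂μ) +
      ∫⁻ x, ENNReal.ofReal (s ^ (-α)) * ENNReal.ofReal (FS f s x ^ α) *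
        ENNReal.ofReal (s ^ (γ - 1)) ∂μ := by
    intro s hs
    have hs' : (0:ℝ) < s := hs
    obtain ⟨h1, h2, hm1, hm2, hsum, hb1, hb2⟩ := H s hs'
    have c1 := cheb h1 hm1 β hβ M hM s hs' _ (FL_nonneg f s) hb1
    have c2 := cheb h2 hm2 α hα M hM s hs' _ (FS_nonneg f s) hb2
    have c3 : μ {a | s < g a} ≤ μ {x | M * s ≤ ‖h1 x‖} + μ {x | M * s ≤ ‖h2 x‖} := by
      refine le_trans ?_ (measure_union_le _ _)
      apply measure_mono_ae
      filter_upwards [hsum] with x hx hxs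
      have hx1 : s < ‖h x‖ / (2 * M) := hxs
      rw [lt_div_iff₀ (by positivity)] at hx1
      rw [hx, Pi.add_apply] at hx1
      have hx2 := norm_add_le (h1 x) (h2 x)
      by_contra hcon
      have hcon' : ¬ (M * s ≤ ‖h1 x‖ ∨ M * s ≤ ‖h2 x‖) := hcon
      push Not at hcon'
      nlinarith [hcon'.1, hcon'.2]
    calc μ {a | s < g a} * ENNReal.ofReal (s ^ (γ - 1))
        ≤ (ENNReal.ofReal (s ^ (-β)) * ∫⁻ x, ENNReal.ofReal (FL f s x ^ β) ∂μ +
          ENNReal.ofReal (s ^ (-α)) * ∫⁻ x, ENNReal.ofReal (FS f s x ^ α) ∂μ) *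
            ENNReal.ofReal (s ^ (γ - 1)) := by
          gcongr
          exact c3.trans (add_le_add c1 c2)
      _ = _ := by
          rw [add_mul, ← lintegral_const_mul' _ _ ENNReal.ofReal_ne_top,
            ← lintegral_const_mul' _ _ ENNReal.ofReal_ne_top,
            ← lintegral_mul_const' _ _ ENNReal.ofReal_ne_top,
            ← lintegral_mul_const' _ _ ENNReal.ofReal_ne_top]
  have mL : Measurable (fun p : ℝ × Ω => ENNReal.ofReal (p.1 ^ (-β)) *
      ENNReal.ofReal (FL f p.1 p.2 ^ β) * ENNReal.ofReal (p.1 ^ (γ - 1))) := by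
    have := FL_meas2 f hf
    fun_prop
  have mS : Measurable (fun p : ℝ × Ω => ENNReal.ofReal (p.1 ^ (-α)) *
      ENNReal.ofReal (FS f p.1 p.2 ^ α) * ENNReal.ofReal (p.1 ^ (γ - 1))) := by
    have := FS_meas2 f hf
    fun_prop
  have e4 : ∫⁻ s in Ioi (0:ℝ), μ {a | s < g a} * ENNReal.ofReal (s ^ (γ - 1)) ≤
      ENNReal.ofReal (1 / (γ - β)) * (∫⁻ x, ENNReal.ofReal (‖f x‖ ^ γ) ∂μ) +
      ENNReal.ofReal (1 / (α - γ)) * ∫⁻ x, ENNReal.ofReal (‖f x‖ ^ γ) ∂μ := by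
    calc ∫⁻ s in Ioi (0:ℝ), μ {a | s < g a} * ENNReal.ofReal (s ^ (γ - 1))
        ≤ ∫⁻ s in Ioi (0:ℝ), ((∫⁻ x, ENNReal.ofReal (s ^ (-β)) * ENNReal.ofReal (FL f s x ^ β) *
        ENNReal.ofReal (s ^ (γ - 1)) ∂μ) +
      ∫⁻ x, ENNReal.ofReal (s ^ (-α)) * ENNReal.ofReal (FS f s x ^ α) *
        ENNReal.ofReal (s ^ (γ - 1)) ∂μ) := setLIntegral_mono' measurableSet_Ioi e3
      _ = (∫⁻ s in Ioi (0:ℝ), ∫⁻ x, ENNReal.ofReal (s ^ (-β)) * ENNReal.ofReal (FL f s x ^ β) *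
        ENNReal.ofReal (s ^ (γ - 1)) ∂μ) +
        ∫⁻ s in Ioi (0:ℝ), ∫⁻ x, ENNReal.ofReal (s ^ (-α)) * ENNReal.ofReal (FS f s x ^ α) *
        ENNReal.ofReal (s ^ (γ - 1)) ∂μ := by
          rw [lintegral_add_left]
          exact mL.lintegral_prod_right'
      _ = (∫⁻ x, (∫⁻ s in Ioi (0:ℝ), ENNReal.ofReal (s ^ (-β)) * ENNReal.ofReal (FL f s x ^ β) *
        ENNReal.ofReal (s ^ (γ - 1))) ∂μ) +
        ∫⁻ x, (∫⁻ s in Ioi (0:ℝ), ENNReal.ofReal (s ^ (-α)) * ENNReal.ofReal (FS f s x ^ α) *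
        ENNReal.ofReal (s ^ (γ - 1))) ∂μ := by
          congr 1
          · exact lintegral_lintegral_swap mL.aemeasurable
          · exact lintegral_lintegral_swap mS.aemeasurable
      _ = _ := by
          rw [lintegral_congr (inner_L f β γ hβ hβγ), lintegral_congr (inner_S f α γ hγ hγα),
            lintegral_const_mul' _ _ ENNReal.ofReal_ne_top,
            lintegral_const_mul' _ _ ENNReal.ofReal_ne_top]
  rw [e2, e1, ENNReal.ofReal_mul (by positivity), mul_assoc]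
  refine mul_le_mul' le_rfl ?_
  calc ENNReal.ofReal γ * ∫⁻ s in Ioi (0:ℝ), μ {a | s < g a} * ENNReal.ofReal (s ^ (γ - 1))
      ≤ ENNReal.ofReal γ * (ENNReal.ofReal (1 / (γ - β)) * (∫⁻ x, ENNReal.ofReal (‖f x‖ ^ γ) ∂μ) +
      ENNReal.ofReal (1 / (α - γ)) * ∫⁻ x, ENNReal.ofReal (‖f x‖ ^ γ) ∂μ) := by gcongr
    _ = ENNReal.ofReal (γ / (γ - β) + γ / (α - γ)) * ∫⁻ x, ENNReal.ofReal (‖f x‖ ^ γ) ∂μ := by
        rw [← add_mul, ← mul_assoc, ← ENNReal.ofReal_add (by positivity) (by positivity),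
          ← ENNReal.ofReal_mul hγ.le]
        congr 2
        ring

theorem tim_sub {f g : ℕ → Ω → ℂ} {f0 g0 : Ω → ℂ} (hf : TendstoInMeasure μ f atTop f0)
    (hg : TendstoInMeasure μ g atTop g0) :
    TendstoInMeasure μ (fun n => f n - g n) atTop (f0 - g0) := by
  intro ε hε
  have h1 := hf (ε / 2) (ENNReal.half_pos hε.ne')
  have h2 := hg (ε / 2) (ENNReal.half_pos hε.ne')
  have h3 := h1.add h2
  rw [add_zero] at h3
  refine tendsto_of_tendsto_of_tendsto_of_le_of_le tendsto_const_nhds h3 (fun n => bot_le)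
    (fun n => ?_)
  refine le_trans (measure_mono ?_) (measure_union_le _ _)
  intro x hx
  have hx' : ε ≤ edist (f n x - g n x) (f0 x - g0 x) := hx
  have h4 : edist (f n x - g n x) (f0 x - g0 x) ≤ edist (f n x) (f0 x) + edist (g n x) (g0 x) := by
    rw [edist_eq_enorm_sub, edist_eq_enorm_sub, edist_eq_enorm_sub]
    have e : f n x - g n x - (f0 x - g0 x) = (f n x - f0 x) - (g n x - g0 x) := by ring
    rw [e]
    exact enorm_sub_le
  by_contra hcon
  have hcon' : ¬ (ε / 2 ≤ edist (f n x) (f0 x) ∨ ε / 2 ≤ edist (g n x) (g0 x)) := hcon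
  push Not at hcon'
  have h5 := ENNReal.add_lt_add hcon'.1 hcon'.2
  rw [ENNReal.add_halves] at h5
  exact absurd (hx'.trans h4) (not_le.mpr h5)

/-- The `L^α` Lipschitz bound extends from pairs in `L^α` to pairs in `L^β` with difference in
`L^α`. -/
theorem ext_alpha {β α : ℝ≥0∞} (hβ0 : β ≠ 0) (hβ : β ≠ ⊤)
    (U : Lp ℂ β μ → Lp ℂ β μ) (M0 M1 : ℝ≥0)
    (h0 : ∀ x y : Lp ℂ β μ, eLpNorm (⇑(U x) - ⇑(U y)) β μ ≤ M0 * eLpNorm (⇑x - ⇑y) β μ)
    (h1 : ∀ x y : Lp ℂ β μ, MemLp x α μ → MemLp y α μ →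
      eLpNorm (⇑(U x) - ⇑(U y)) α μ ≤ M1 * eLpNorm (⇑x - ⇑y) α μ)
    (z y : Lp ℂ β μ) (hzy : MemLp (⇑z - ⇑y) α μ) :
    eLpNorm (⇑(U z) - ⇑(U y)) α μ ≤ M1 * eLpNorm (⇑z - ⇑y) α μ := by
  -- approximations
  have key : ∀ n : ℕ, ∃ yn : Lp ℂ β μ, MemLp yn α μ ∧
      eLpNorm (⇑yn - ⇑y) β μ ≤ ENNReal.ofReal (1 / ((n:ℝ) + 1)) := by
    intro n
    obtain ⟨g, hg, hgm⟩ := (Lp.memLp y).exists_simpleFunc_eLpNorm_sub_lt hβ
      (ε := ENNReal.ofReal (1 / ((n:ℝ) + 1))) (by simpa using (by positivity : (0:ℝ) < n + 1))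
    refine ⟨hgm.toLp g, ?_, ?_⟩
    · exact (g.memLp_of_isFiniteMeasure α μ).ae_eq hgm.coeFn_toLp.symm
    · rw [← eLpNorm_neg, neg_sub]
      refine le_trans (le_of_eq ?_) hg.le
      apply eLpNorm_congr_ae
      filter_upwards [hgm.coeFn_toLp] with x hx
      simp only [Pi.sub_apply, hx]
  choose yn hyn1 hyn2 using key
  set zn : ℕ → Lp ℂ β μ := fun n => yn n + (z - y) with hzn
  have hzyn : ∀ n, (⇑(zn n) - ⇑(yn n)) =ᵐ[μ] ⇑z - ⇑y := by
    intro n
    filter_upwards [Lp.coeFn_add (yn n) (z - y), Lp.coeFn_sub z y] with x hx1 hx2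
    simp only [Pi.sub_apply, hzn, hx1, Pi.add_apply, hx2]
    ring
  have hznα : ∀ n, MemLp (zn n) α μ := by
    intro n
    have h2 : (⇑(zn n)) =ᵐ[μ] ⇑(yn n) + (⇑z - ⇑y) := by
      filter_upwards [hzyn n] with x hx
      simp only [Pi.add_apply, ← hx, Pi.sub_apply]
      ring
    exact ((hyn1 n).add hzy).ae_eq h2.symm
  have hznz : ∀ n, eLpNorm (⇑(zn n) - ⇑z) β μ ≤ ENNReal.ofReal (1 / ((n:ℝ) + 1)) := by
    intro n
    refine le_trans (le_of_eq ?_) (hyn2 n)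
    apply eLpNorm_congr_ae
    filter_upwards [hzyn n] with x hx
    simp only [Pi.sub_apply] at hx ⊢
    linear_combination hx
  have hbound : ∀ n, eLpNorm (⇑(U (zn n)) - ⇑(U (yn n))) α μ ≤ M1 * eLpNorm (⇑z - ⇑y) α μ := by
    intro n
    refine (h1 _ _ (hznα n) (hyn1 n)).trans (le_of_eq ?_)
    rw [eLpNorm_congr_ae (hzyn n)]
  have ht0 : Tendsto (fun n : ℕ => ENNReal.ofReal (1 / ((n:ℝ) + 1))) atTop (𝓝 0) := by
    have := tendsto_one_div_add_atTop_nhds_zero_nat (𝕜 := ℝ)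
    have h2 := ENNReal.tendsto_ofReal this
    rwa [ENNReal.ofReal_zero] at h2
  have hc1 : Tendsto (fun n : ℕ => (M0:ℝ≥0∞) * ENNReal.ofReal (1 / ((n:ℝ) + 1))) atTop (𝓝 0) := by
    have := ENNReal.Tendsto.const_mul ht0 (a := (M0:ℝ≥0∞)) (Or.inr ENNReal.coe_ne_top)
    rwa [mul_zero] at this
  have hU : ∀ (w : ℕ → Lp ℂ β μ) (w0 : Lp ℂ β μ),
      (∀ n, eLpNorm (⇑(w n) - ⇑w0) β μ ≤ ENNReal.ofReal (1 / ((n:ℝ) + 1))) →
      TendstoInMeasure μ (fun n => ⇑(U (w n))) atTop (⇑(U w0)) := by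
    intro w w0 hw
    apply tendstoInMeasure_of_tendsto_eLpNorm hβ0 (fun n => Lp.aestronglyMeasurable _)
      (Lp.aestronglyMeasurable _)
    refine tendsto_of_tendsto_of_tendsto_of_le_of_le tendsto_const_nhds hc1 (fun n => bot_le)
      (fun n => ?_)
    refine (h0 _ _).trans ?_
    gcongr
    exact hw n
  have hT : TendstoInMeasure μ (fun n => ⇑(U (zn n)) - ⇑(U (yn n))) atTop
      (⇑(U z) - ⇑(U y)) := tim_sub (hU zn z hznz) (hU yn y hyn2)
  exact eLpNorm_le_of_tendstoInMeasure (Eventually.of_forall hbound) hT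
    (fun n => (Lp.aestronglyMeasurable _).sub (Lp.aestronglyMeasurable _))

/-- Lipschitz interpolation on a finite measure space. -/
theorem main {β γ α : ℝ} (hβ : 1 ≤ β) (hβγ : β < γ) (hγα : γ < α)
    (U : Lp ℂ (ENNReal.ofReal β) μ → Lp ℂ (ENNReal.ofReal β) μ) (M0 M1 : ℝ≥0)
    (h0 : ∀ x y : Lp ℂ (ENNReal.ofReal β) μ, eLpNorm (⇑(U x) - ⇑(U y)) (ENNReal.ofReal β) μ ≤
      M0 * eLpNorm (⇑x - ⇑y) (ENNReal.ofReal β) μ)
    (hα : ∀ x : Lp ℂ (ENNReal.ofReal β) μ, MemLp x (ENNReal.ofReal α) μ →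
      MemLp (U x) (ENNReal.ofReal α) μ)
    (h1 : ∀ x y : Lp ℂ (ENNReal.ofReal β) μ, MemLp x (ENNReal.ofReal α) μ →
      MemLp y (ENNReal.ofReal α) μ →
      eLpNorm (⇑(U x) - ⇑(U y)) (ENNReal.ofReal α) μ ≤
        M1 * eLpNorm (⇑x - ⇑y) (ENNReal.ofReal α) μ) :
    (∀ x : Lp ℂ (ENNReal.ofReal β) μ, MemLp x (ENNReal.ofReal γ) μ →
      MemLp (U x) (ENNReal.ofReal γ) μ) ∧
    ∀ x y : Lp ℂ (ENNReal.ofReal β) μ, MemLp x (ENNReal.ofReal γ) μ →
      MemLp y (ENNReal.ofReal γ) μ →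
      eLpNorm (⇑(U x) - ⇑(U y)) (ENNReal.ofReal γ) μ ≤
        ENNReal.ofReal (2 * (γ / (γ - β) + γ / (α - γ)) ^ (1 / γ)) * (max M0 M1 : ℝ≥0) *
          eLpNorm (⇑x - ⇑y) (ENNReal.ofReal γ) μ := by
  have hβ0 : 0 < β := by linarith
  have hγ0 : 0 < γ := by linarith
  have hα0 : 0 < α := by linarith
  have hγβ' : 0 < γ - β := by linarith
  have hαγ' : 0 < α - γ := by linarith
  have hmain : ∀ x y : Lp ℂ (ENNReal.ofReal β) μ,
      eLpNorm (⇑(U x) - ⇑(U y)) (ENNReal.ofReal γ) μ ≤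
        ENNReal.ofReal (2 * (γ / (γ - β) + γ / (α - γ)) ^ (1 / γ)) * (max M0 M1 : ℝ≥0) *
          eLpNorm (⇑x - ⇑y) (ENNReal.ofReal γ) μ := by
    intro x y
    set M := max M0 M1 with hMdef
    have hM0 : M0 ≤ M := le_max_left _ _
    have hM1 : M1 ≤ M := le_max_right _ _
    by_cases hM : M = 0
    · have h2 := h0 x y
      have hM00 : M0 = 0 := le_antisymm (hM ▸ hM0) bot_le
      rw [hM00, ENNReal.coe_zero, zero_mul, nonpos_iff_eq_zero,
        eLpNorm_eq_zero_iff ((Lp.aestronglyMeasurable _).sub (Lp.aestronglyMeasurable _))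
          (by simpa using hβ0)] at h2
      rw [eLpNorm_congr_ae h2, eLpNorm_zero]
      exact bot_le
    set f : Ω → ℂ := ⇑x - ⇑y with hf
    have hfm : StronglyMeasurable f := (Lp.stronglyMeasurable x).sub (Lp.stronglyMeasurable y)
    have hfβ : MemLp f (ENNReal.ofReal β) μ := (Lp.memLp x).sub (Lp.memLp y)
    set h : Ω → ℂ := ⇑(U x) - ⇑(U y) with hh
    have hhm : AEStronglyMeasurable h μ :=
      (Lp.aestronglyMeasurable _).sub (Lp.aestronglyMeasurable _)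
    have hmarc := marc (μ := μ) f h hfm.measurable hhm β γ α hβ0 hβγ hγα M hM (by
      intro s hs
      set b : Ω → ℂ := {t | ¬ s < ‖f t‖}.indicator f with hb
      have hset : MeasurableSet {t | ¬ s < ‖f t‖} :=
        (measurableSet_lt measurable_const hfm.measurable.norm).compl
      have hbm : AEStronglyMeasurable b μ := (hfm.indicator hset).aestronglyMeasurable
      have hbb : ∀ t, ‖b t‖ ≤ s := by
        intro t
        by_cases ht : s < ‖f t‖
        · rw [hb, indicator_of_notMem (by simpa using ht), norm_zero]; exact hs.le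
        · rw [hb, indicator_of_mem (show t ∈ {t | ¬ s < ‖f t‖} from ht)]; exact not_lt.mp ht
      have hbβ : MemLp b (ENNReal.ofReal β) μ :=
        MemLp.of_bound hbm s (Eventually.of_forall hbb)
      have hbα : MemLp b (ENNReal.ofReal α) μ :=
        MemLp.of_bound hbm s (Eventually.of_forall hbb)
      set z : Lp ℂ (ENNReal.ofReal β) μ := y + hbβ.toLp b with hz
      have hzy : (⇑z - ⇑y) =ᵐ[μ] b := by
        filter_upwards [Lp.coeFn_add y (hbβ.toLp b), hbβ.coeFn_toLp] with t ht1 ht2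
        simp only [Pi.sub_apply, hz, ht1, Pi.add_apply, ht2]
        ring
      have hxz : (⇑x - ⇑z) =ᵐ[μ] fun t => f t - b t := by
        filter_upwards [hzy] with t ht
        simp only [Pi.sub_apply, hf] at ht ⊢
        linear_combination -ht
      refine ⟨⇑(U x) - ⇑(U z), ⇑(U z) - ⇑(U y),
        (Lp.aestronglyMeasurable _).sub (Lp.aestronglyMeasurable _),
        (Lp.aestronglyMeasurable _).sub (Lp.aestronglyMeasurable _), ?_, ?_, ?_⟩
      · refine Eventually.of_forall fun t => ?_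
        simp only [hh, Pi.sub_apply, Pi.add_apply]
        ring
      · refine (h0 x z).trans ?_
        have : eLpNorm (⇑x - ⇑z) (ENNReal.ofReal β) μ = eLpNorm (FL f s) (ENNReal.ofReal β) μ := by
          rw [eLpNorm_congr_ae hxz]
          apply eLpNorm_congr_norm_ae
          refine Eventually.of_forall fun t => ?_
          rw [Real.norm_of_nonneg (FL_nonneg f s t)]
          unfold FL
          by_cases ht : s < ‖f t‖
          · rw [if_pos ht, hb, indicator_of_notMem (by simpa using ht), sub_zero]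
          · rw [if_neg ht, hb, indicator_of_mem (show t ∈ {t | ¬ s < ‖f t‖} from ht), sub_self,
              norm_zero]
        rw [this]
        gcongr
      · have hzyα : MemLp (⇑z - ⇑y) (ENNReal.ofReal α) μ := hbα.ae_eq hzy.symm
        refine (ext_alpha (by simpa using hβ0) ENNReal.ofReal_ne_top U M0 M1 h0 h1 z y
          hzyα).trans ?_
        have : eLpNorm (⇑z - ⇑y) (ENNReal.ofReal α) μ = eLpNorm (FS f s) (ENNReal.ofReal α) μ := by
          rw [eLpNorm_congr_ae hzy]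
          apply eLpNorm_congr_norm_ae
          refine Eventually.of_forall fun t => ?_
          rw [Real.norm_of_nonneg (FS_nonneg f s t)]
          unfold FS
          by_cases ht : s < ‖f t‖
          · rw [if_pos ht, hb, indicator_of_notMem (by simpa using ht), norm_zero]
          · rw [if_neg ht, hb, indicator_of_mem (show t ∈ {t | ¬ s < ‖f t‖} from ht)]
        rw [this]
        gcongr)
    have hγ1 : ENNReal.ofReal γ ≠ 0 := by simpa using hγ0
    have hγr : (ENNReal.ofReal γ).toReal = γ := ENNReal.toReal_ofReal hγ0.le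
    rw [eLpNorm_eq_lintegral_rpow_enorm_toReal hγ1 ENNReal.ofReal_ne_top,
      eLpNorm_eq_lintegral_rpow_enorm_toReal hγ1 ENNReal.ofReal_ne_top, hγr]
    have conv : ∀ u : Ω → ℂ, ∫⁻ t, ‖u t‖ₑ ^ γ ∂μ = ∫⁻ t, ENNReal.ofReal (‖u t‖ ^ γ) ∂μ := by
      intro u
      apply lintegral_congr
      intro t
      rw [← ofReal_norm, ENNReal.ofReal_rpow_of_nonneg (norm_nonneg _) hγ0.le]
    rw [conv, conv]
    have hM' : (0:ℝ) < M := by positivity
    calc (∫⁻ t, ENNReal.ofReal (‖h t‖ ^ γ) ∂μ) ^ (1 / γ)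
        ≤ (ENNReal.ofReal ((2 * M) ^ γ * (γ / (γ - β) + γ / (α - γ))) *
          ∫⁻ x, ENNReal.ofReal (‖f x‖ ^ γ) ∂μ) ^ (1 / γ) := by gcongr
      _ = _ := by
        rw [ENNReal.mul_rpow_of_nonneg _ _ (by positivity)]
        congr 1
        rw [ENNReal.ofReal_rpow_of_nonneg (by positivity) (by positivity),
          Real.mul_rpow (by positivity) (by positivity), ← Real.rpow_mul (by positivity),
          mul_one_div_cancel hγ0.ne', Real.rpow_one, ← ENNReal.ofReal_coe_nnreal,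
          ← ENNReal.ofReal_mul (by positivity)]
        congr 1
        ring
  refine ⟨fun x hx => ?_, fun x y _ _ => hmain x y⟩
  -- `U 0` is in `L^α`, hence in `L^γ`
  have h00 : MemLp (⇑(0 : Lp ℂ (ENNReal.ofReal β) μ)) (ENNReal.ofReal α) μ :=
    (MemLp.zero' : MemLp (fun _ : Ω => (0:ℂ)) (ENNReal.ofReal α) μ).ae_eq
      (Lp.coeFn_zero ℂ (ENNReal.ofReal β) μ).symm
  have hU0 : MemLp (U 0) (ENNReal.ofReal γ) μ :=
    (hα 0 h00).mono_exponent (ENNReal.ofReal_le_ofReal hγα.le)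
  have h3 := hmain x 0
  have h4 : eLpNorm (⇑x - ⇑(0 : Lp ℂ (ENNReal.ofReal β) μ)) (ENNReal.ofReal γ) μ =
      eLpNorm x (ENNReal.ofReal γ) μ := by
    apply eLpNorm_congr_ae
    filter_upwards [Lp.coeFn_zero ℂ (ENNReal.ofReal β) μ] with t ht
    rw [Pi.sub_apply, ht, Pi.zero_apply, sub_zero]
  rw [h4] at h3
  have h5 : MemLp (⇑(U x) - ⇑(U 0)) (ENNReal.ofReal γ) μ := by
    refine ⟨(Lp.aestronglyMeasurable _).sub (Lp.aestronglyMeasurable _), h3.trans_lt ?_⟩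
    exact ENNReal.mul_lt_top (ENNReal.mul_lt_top ENNReal.ofReal_lt_top ENNReal.coe_lt_top) hx.2
  have h6 := h5.add hU0
  rwa [sub_add_cancel] at h6

end Pool.Agent.W773.LipInt
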